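import Mathlib
import Pool.Agent.Run7.h489.AbSym.Order

set_option autoImplicit false

/-!
# Commuting unitary symmetries of maximal equiangular tight frames
-/

namespace Pool.Agent.Results.MP_d0f9e0_co.CommutingUnitaries

/-- `x` is a maximal equiangular tight frame in `ℂ^d`. -/
def IsMaximalETF (d : ℕ) (x : Fin (d ^ 2) → EuclideanSpace ℂ (Fin d)) : Prop :=
  (∀ i, ‖x i‖ = 1) ∧ ∀ i j, i ≠ j → ‖inner ℂ (x i) (x j)‖ = 1 / Real.sqrt ((d : ℝ) + 1)

/-- The unitary transformation `U` maps the line of `x i` to the line of `x (π i)` for all `i`. -/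
def Induces {d : ℕ} (x : Fin (d ^ 2) → EuclideanSpace ℂ (Fin d))
    (U : EuclideanSpace ℂ (Fin d) ≃ₗᵢ[ℂ] EuclideanSpace ℂ (Fin d))
    (π : Equiv.Perm (Fin (d ^ 2))) : Prop :=
  ∀ i, ∃ c : ℂ, U (x i) = c • x (π i)

/-- **Commuting unitary symmetries** permute the lines of a maximal ETF in `ℂ^d` in only `O(d)`
ways. (1) If a group `G` of permutations of the `d²` lines, `d ≥ 4`, is induced by pairwise
commuting unitary transformations then `|G| (d - 6 √(d+1) - 3) ≤ 3 d (d - √(d+1))`, so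
`|G| ≤ (3 + O(1/√d)) d`. (2) If all of them are powers of one transformation, the bound is
`d + O(√d)`: for `d ≥ 80` the order of the permutation of the lines induced by a unitary symmetry
is less than `(√(d+1) + 2)² = d + 4 √(d+1) + 5`. -/
theorem result (d : ℕ) (x : Fin (d ^ 2) → EuclideanSpace ℂ (Fin d)) (hx : IsMaximalETF d x) :
    (4 ≤ d → ∀ (G : Subgroup (Equiv.Perm (Fin (d ^ 2))))
      (U : G → (EuclideanSpace ℂ (Fin d) ≃ₗᵢ[ℂ] EuclideanSpace ℂ (Fin d))),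
      (∀ g : G, Induces x (U g) g) → (∀ a b v, U a (U b v) = U b (U a v)) →
      (Nat.card G : ℝ) * (d - 6 * Real.sqrt ((d : ℝ) + 1) - 3) ≤
        3 * d * (d - Real.sqrt ((d : ℝ) + 1))) ∧
    (80 ≤ d → ∀ (U : EuclideanSpace ℂ (Fin d) ≃ₗᵢ[ℂ] EuclideanSpace ℂ (Fin d))
      (π : Equiv.Perm (Fin (d ^ 2))), Induces x U π →
      (orderOf π : ℝ) < (Real.sqrt ((d : ℝ) + 1) + 2) ^ 2) := by
  have hmat : ∀ (U : EuclideanSpace ℂ (Fin d) ≃ₗᵢ[ℂ] EuclideanSpace ℂ (Fin d))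
      (π : Equiv.Perm (Fin (d ^ 2))), Induces x U π →
      ∃ M, Pool.Agent.W864.Sym.Ind x M π ∧ ∀ v, Matrix.mulVec M v.ofLp = (U v).ofLp := by
    intro U π hU
    obtain ⟨M, hM, hMv⟩ := Pool.Agent.H109R2.SymGroup.unitary_matrix U
    refine ⟨M, ⟨hM, fun i => ?_⟩, hMv⟩
    obtain ⟨c, hc⟩ := hU i
    exact ⟨c, by rw [hMv, hc]; rfl⟩
  refine ⟨fun hd G U hU hcomm => ?_, fun hd U π hU => ?_⟩
  · choose M hM hMv using fun g : G => hmat (U g) g (hU g)
    have hcM : ∀ a b, M a * M b = M b * M a := by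
      intro a b
      apply Matrix.ext_of_mulVec_single
      intro i
      rw [← Matrix.mulVec_mulVec, ← Matrix.mulVec_mulVec]
      have h1 := hMv b (WithLp.toLp 2 (Pi.single i 1))
      have h2 := hMv a (WithLp.toLp 2 (Pi.single i 1))
      simp only at h1 h2
      rw [h1, h2, hMv, hMv, hcomm]
    have hc : ∀ a ∈ G, ∀ b ∈ G, a * b = b * a := by
      intro a ha b hb
      have h1 := (hM ⟨a, ha⟩).mul (hM ⟨b, hb⟩)
      have h2 := (hM ⟨b, hb⟩).mul (hM ⟨a, ha⟩)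
      rw [hcM] at h1
      ext i
      obtain ⟨c, hc⟩ := h1.2 i
      obtain ⟨c', hc'⟩ := h2.2 i
      have h3 := Pool.Agent.W864.Sym.coef hx h2.1 hc'
      congr 1
      refine (Pool.Agent.H109R2.SymGroup.line_inj (by omega) hx _ _ (star c' * c) ?_).symm
      rw [← smul_smul, ← hc, hc', smul_smul, h3, one_smul]
    exact Run7.h489.AbSym.commuting_bound hd hx G hc M hM hcM
  · obtain ⟨M, hM, -⟩ := hmat U π hU
    exact Run7.h489.AbSym.order_lt hd hx ⟨M, hM⟩

end Pool.Agent.Results.MP_d0f9e0_co.CommutingUnitaries
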