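import Pool.Agent.Run7.h53.BZ.Fin

set_option autoImplicit false

namespace Pool.Agent.Results.MP_d0f9e0_co.ExplicitBounds

/-- `x` is a maximal equiangular tight frame in `ℂ^d`. -/
def IsMaximalETF (d : ℕ) (x : Fin (d ^ 2) → EuclideanSpace ℂ (Fin d)) : Prop :=
  (∀ i, ‖x i‖ = 1) ∧ ∀ i j, i ≠ j → ‖inner ℂ (x i) (x j)‖ = 1 / Real.sqrt ((d : ℝ) + 1)

/-- The unitary transformations permuting the lines spanned by the vectors of `x` act transitively
on these lines. -/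
def HasTransitiveSymmetry {d : ℕ} (x : Fin (d ^ 2) → EuclideanSpace ℂ (Fin d)) : Prop :=
  ∀ i j, ∃ (U : EuclideanSpace ℂ (Fin d) ≃ₗᵢ[ℂ] EuclideanSpace ℂ (Fin d))
    (π : Equiv.Perm (Fin (d ^ 2))), (∀ k, ∃ c : ℂ, U (x k) = c • x (π k)) ∧ π i = j

/-- A unitary transformation maps the lines of `x` onto the lines of `y`. -/
def SameUpToNumbering {d : ℕ} (x y : Fin (d ^ 2) → EuclideanSpace ℂ (Fin d)) : Prop :=
  ∃ (U : EuclideanSpace ℂ (Fin d) ≃ₗᵢ[ℂ] EuclideanSpace ℂ (Fin d))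
    (π : Equiv.Perm (Fin (d ^ 2))), ∀ k, ∃ c : ℂ, ‖c‖ = 1 ∧ U (x k) = c • y (π k)

/-- The field generated over `ℚ` by the triple products
`⟨x_i, x_j⟩ ⟨x_j, x_k⟩ ⟨x_k, x_i⟩` of the frame. -/
noncomputable def tripleProductField {d : ℕ} (x : Fin (d ^ 2) → EuclideanSpace ℂ (Fin d)) :
    IntermediateField ℚ ℂ :=
  IntermediateField.adjoin ℚ
    {z | ∃ i j k, z = inner ℂ (x i) (x j) * inner ℂ (x j) (x k) * inner ℂ (x k) (x i)}

/-- **Explicit bounds for maximal equiangular tight frames with transitive symmetries in prime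
dimensions.** Let `p ≥ 5` be a prime. (1) There are at most `16 ^ p` inequivalent maximal
equiangular tight frames in `ℂ^p` with a transitive group of unitary symmetries. (2) The triple
products of each of them generate a number field of degree at most `(p - 1) 16 ^ p`. -/
theorem result (p : ℕ) (hp : p.Prime) (hp5 : 5 ≤ p) :
    (∃ S : Set (Fin (p ^ 2) → EuclideanSpace ℂ (Fin p)), S.Finite ∧ S.ncard ≤ 16 ^ p ∧
      (∀ y ∈ S, IsMaximalETF p y) ∧
      ∀ x : Fin (p ^ 2) → EuclideanSpace ℂ (Fin p), IsMaximalETF p x →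
        HasTransitiveSymmetry x → ∃ y ∈ S, SameUpToNumbering x y) ∧
    (∀ x : Fin (p ^ 2) → EuclideanSpace ℂ (Fin p), IsMaximalETF p x →
      HasTransitiveSymmetry x → FiniteDimensional ℚ (tripleProductField x) ∧
        Module.finrank ℚ (tripleProductField x) ≤ (p - 1) * 16 ^ p) := by
  have : Fact p.Prime := ⟨hp⟩
  constructor
  · obtain ⟨S, h1, h2, h3, h4⟩ := Run7.h53.BZ.count hp5
    exact ⟨S, h1, h2, fun y hy => ⟨(h3 y hy).nrm, (h3 y hy).ang⟩,
      fun x hx htr => h4 x ⟨hx.1, hx.2⟩ htr⟩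
  · intro x hx htr
    exact Run7.h53.BZ.degree hp5 ⟨hx.1, hx.2⟩ htr

end Pool.Agent.Results.MP_d0f9e0_co.ExplicitBounds
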