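import Mathlib
import Pool.Agent.Run7.h489.AbSym.Main

set_option autoImplicit false

/-!
# Large commutative groups of symmetries of maximal equiangular tight frames act freely
-/

namespace Pool.Agent.Results.MP_d0f9e0_co.FreeAbelianSymmetry

/-- `x` is a maximal equiangular tight frame in `ℂ^d`. -/
def IsMaximalETF (d : ℕ) (x : Fin (d ^ 2) → EuclideanSpace ℂ (Fin d)) : Prop :=
  (∀ i, ‖x i‖ = 1) ∧ ∀ i j, i ≠ j → ‖inner ℂ (x i) (x j)‖ = 1 / Real.sqrt ((d : ℝ) + 1)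

/-- The unitary transformation `U` maps the line of `x i` to the line of `x (π i)` for all `i`. -/
def Induces {d : ℕ} (x : Fin (d ^ 2) → EuclideanSpace ℂ (Fin d))
    (U : EuclideanSpace ℂ (Fin d) ≃ₗᵢ[ℂ] EuclideanSpace ℂ (Fin d))
    (π : Equiv.Perm (Fin (d ^ 2))) : Prop :=
  ∀ i, ∃ c : ℂ, U (x i) = c • x (π i)

/-- Let `G` be a commutative group of unitary symmetries of a maximal ETF in `ℂ^d`, `d ≥ 400`,
regarded as a group of permutations of the `d²` lines. If `|G| > 4 (d + 1) ^ (5 / 4)` then no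
element of `G` other than the identity fixes a line, so that `|G|` divides `d²`; if moreover
`|G| > d² / 2` then `|G| = d²` and `G` is transitive. -/
theorem result (d : ℕ) (hd : 400 ≤ d) (x : Fin (d ^ 2) → EuclideanSpace ℂ (Fin d))
    (hx : IsMaximalETF d x) (G : Subgroup (Equiv.Perm (Fin (d ^ 2))))
    (hG : ∀ π ∈ G, ∃ U, Induces x U π) (hc : ∀ a ∈ G, ∀ b ∈ G, a * b = b * a)
    (hbig : 256 * ((d : ℝ) + 1) ^ 5 < (Nat.card G : ℝ) ^ 4) :
    (∀ g ∈ G, g ≠ 1 → ∀ i, g i ≠ i) ∧ Nat.card G ∣ d ^ 2 ∧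
      (d ^ 2 < 2 * Nat.card G → Nat.card G = d ^ 2 ∧ ∀ i j, ∃ g ∈ G, g i = j) := by
  have hGM : ∀ π ∈ G, ∃ M, Pool.Agent.W864.Sym.Ind x M π := by
    intro π hπ
    obtain ⟨U, hU⟩ := hG π hπ
    obtain ⟨M, hM, hMv⟩ := Pool.Agent.H109R2.SymGroup.unitary_matrix U
    refine ⟨M, hM, fun i => ?_⟩
    obtain ⟨c, hc⟩ := hU i
    exact ⟨c, by rw [hMv, hc]; rfl⟩
  have h1 : ∀ i, Nat.card (Run7.h489.AbSym.stab G i) = 1 := by
    intro i
    by_contra h
    have h2 : 0 < Nat.card (Run7.h489.AbSym.stab G i) := Nat.card_pos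
    exact absurd (Run7.h489.AbSym.nonfree_bound hd hx G hGM hc (i := i) (by omega))
      (not_le.mpr hbig)
  have hfree : ∀ g ∈ G, g ≠ 1 → ∀ i, g i ≠ i := by
    intro g hg hg1 i hi
    have h2 : g ∈ Run7.h489.AbSym.stab G i := Run7.h489.AbSym.mem_stab.mpr ⟨hg, hi⟩
    have h3 := (Nat.card_eq_one_iff_unique.mp (h1 i)).1
    have h4 : (⟨g, h2⟩ : Run7.h489.AbSym.stab G i) = 1 := Subsingleton.elim _ _
    exact hg1 (congrArg Subtype.val h4)
  have hmul : Run7.h489.AbSym.norb G * Nat.card G = d ^ 2 := by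
    classical
    have : Fintype G := Fintype.ofFinite G
    have h2 := Run7.h489.AbSym.burn G
    rw [← Finset.add_sum_erase Finset.univ _ (Finset.mem_univ (1 : G))] at h2
    have h3 : ∑ g ∈ Finset.univ.erase (1 : G),
        (Pool.Agent.W864.Sym.fix (g : Equiv.Perm (Fin (d ^ 2))) : ℝ) = 0 := by
      refine Finset.sum_eq_zero fun g hg => ?_
      have h4 : Pool.Agent.W864.Sym.fix (g : Equiv.Perm (Fin (d ^ 2))) = 0 := by
        rw [Pool.Agent.W864.Sym.fix, Finset.card_eq_zero, Finset.filter_eq_empty_iff]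
        intro i _
        exact hfree g g.2 (fun h => Finset.ne_of_mem_erase hg (Subtype.ext h)) i
      rw [h4, Nat.cast_zero]
    have h5 : Pool.Agent.W864.Sym.fix ((1 : G) : Equiv.Perm (Fin (d ^ 2))) = d ^ 2 :=
      Pool.Agent.W864.Sym.fix_one
    rw [h3, add_zero, h5] at h2
    exact_mod_cast h2.symm
  refine ⟨hfree, Dvd.intro_left _ hmul, fun h2 => ?_⟩
  have ht := Run7.h489.AbSym.norb_pos (by omega) G
  have ht1 : Run7.h489.AbSym.norb G = 1 := by
    by_contra h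
    have h3 : 2 ≤ Run7.h489.AbSym.norb G := by omega
    have h4 := Nat.mul_le_mul_right (Nat.card G) h3
    omega
  exact ⟨by rw [ht1, one_mul] at hmul; exact hmul, Run7.h489.AbSym.trans_of_norb ht1⟩

end Pool.Agent.Results.MP_d0f9e0_co.FreeAbelianSymmetry
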