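import Mathlib
import Pool.Agent.Run7.h489.AbSym.Main
import Pool.Agent.Y387.SF.Class

set_option autoImplicit false

/-!
# Maximal equiangular tight frames in prime dimension with a commutative group of symmetries
-/

namespace Pool.Agent.Results.MP_d0f9e0_co.PrimeAbelianSymmetry

/-- `x` is a maximal equiangular tight frame in `ℂ^d`. -/
def IsMaximalETF (d : ℕ) (x : Fin (d ^ 2) → EuclideanSpace ℂ (Fin d)) : Prop :=
  (∀ i, ‖x i‖ = 1) ∧ ∀ i j, i ≠ j → ‖inner ℂ (x i) (x j)‖ = 1 / Real.sqrt ((d : ℝ) + 1)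

/-- The unitary transformation `U` maps the line of `x i` to the line of `x (π i)` for all `i`. -/
def Induces {d : ℕ} (x : Fin (d ^ 2) → EuclideanSpace ℂ (Fin d))
    (U : EuclideanSpace ℂ (Fin d) ≃ₗᵢ[ℂ] EuclideanSpace ℂ (Fin d))
    (π : Equiv.Perm (Fin (d ^ 2))) : Prop :=
  ∀ i, ∃ c : ℂ, U (x i) = c • x (π i)

/-- `G` is a commutative group of permutations of the lines of `x`, all induced by unitary
transformations. -/
def IsCommSymmetryGroup {d : ℕ} (x : Fin (d ^ 2) → EuclideanSpace ℂ (Fin d))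
    (G : Subgroup (Equiv.Perm (Fin (d ^ 2)))) : Prop :=
  (∀ π ∈ G, ∃ U, Induces x U π) ∧ ∀ a ∈ G, ∀ b ∈ G, a * b = b * a

/-- `x` and `y` differ by a unitary transformation and phases. -/
def Equivalent {d : ℕ} (x y : Fin (d ^ 2) → EuclideanSpace ℂ (Fin d)) : Prop :=
  ∃ U : EuclideanSpace ℂ (Fin d) ≃ₗᵢ[ℂ] EuclideanSpace ℂ (Fin d),
    ∀ k, ∃ c : ℂ, ‖c‖ = 1 ∧ U (x k) = c • y k

/-- Let `p ≥ 5` be a prime. There is a finite set `S` of maximal ETFs in `ℂ^p`, with algebraic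
coordinates, such that a maximal ETF `x` in `ℂ^p` with a commutative group `G` of unitary
symmetries with `|G| (p - 6 √(p+1) - 3) > 3 p (p - √(p+1))` (for large `p`: with more than
`(3 + O(1/√p)) p` elements) is equivalent to an element of `S`, and `G` has order `p²` and acts
transitively on the lines. -/
theorem result (p : ℕ) (hp : p.Prime) (hp5 : 5 ≤ p) :
    ∃ S : Set (Fin (p ^ 2) → EuclideanSpace ℂ (Fin p)), S.Finite ∧
      (∀ y ∈ S, IsMaximalETF p y ∧ ∀ k i, IsAlgebraic ℚ (y k i)) ∧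
      ∀ x : Fin (p ^ 2) → EuclideanSpace ℂ (Fin p), IsMaximalETF p x →
        ∀ G : Subgroup (Equiv.Perm (Fin (p ^ 2))), IsCommSymmetryGroup x G →
          3 * p * (p - Real.sqrt ((p : ℝ) + 1)) <
            (Nat.card G : ℝ) * (p - 6 * Real.sqrt ((p : ℝ) + 1) - 3) →
          Nat.card G = p ^ 2 ∧ (∀ i j, ∃ g ∈ G, g i = j) ∧ ∃ y ∈ S, Equivalent x y := by
  have : Fact p.Prime := ⟨hp⟩
  obtain ⟨S, hS, hS1, hS2⟩ := Pool.Agent.Y387.SF.classify hp5
  refine ⟨S, hS, fun y hy => ?_, fun x hx G hG hbig => ?_⟩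
  · obtain ⟨h1, h2⟩ := hS1 y hy
    exact ⟨⟨h1.nrm, h1.ang⟩, h2⟩
  · obtain ⟨hG1, hc⟩ := hG
    have hGM : ∀ g : G, ∃ M, Pool.Agent.W864.Sym.Ind x M g := by
      intro g
      obtain ⟨U, hU⟩ := hG1 g g.2
      obtain ⟨M, hM, hMv⟩ := Pool.Agent.H109R2.SymGroup.unitary_matrix U
      refine ⟨M, hM, fun i => ?_⟩
      obtain ⟨c, hc⟩ := hU i
      exact ⟨c, by rw [hMv, hc]; rfl⟩
    choose M hM using hGM
    have hab : ∃ a b, M a * M b ≠ M b * M a := by
      by_contra h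
      push Not at h
      exact absurd (Run7.h489.AbSym.commuting_bound (by omega) hx G hc M hM h)
        (not_le.mpr hbig)
    obtain ⟨a, b, hab⟩ := hab
    obtain ⟨h1, h2⟩ := Run7.h489.AbSym.prime_case hp (by omega) hx G hc M hM hab
    have h3 := Run7.h489.AbSym.trans_of_norb h2
    refine ⟨h1, h3, hS2 x ⟨hx.1, hx.2⟩ fun i j => ?_⟩
    obtain ⟨g, hg, hgj⟩ := h3 i j
    obtain ⟨U, hU⟩ := hG1 g hg
    exact ⟨U, g, hU, hgj⟩

end Pool.Agent.Results.MP_d0f9e0_co.PrimeAbelianSymmetry
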